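import Mathlib

set_option autoImplicit false

namespace Pool.Agent.Results.MP_9fecad_an.NoCommonMin

open Complex Set ComplexConjugate

/-- The polynomial `G_{α,β}`. -/
noncomputable def G (α : ℕ) (β : ℝ) (ξ : ℂ) : ℂ :=
  ∑ n ∈ Finset.range (α + 2), ((α + 1).choose n : ℂ) * (-ξ) ^ n / (n + β)

/-- The numerator of `G_{3,-t}` at `N / D`. -/
def g (t N D : ℝ) : ℝ :=
  -D ^ 4 * ((1 - t) * (2 - t) * (3 - t) * (4 - t)) - 4 * N * D ^ 3 * (t * (2 - t) * (3 - t) * (4 - t)) +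
    6 * N ^ 2 * D ^ 2 * (t * (1 - t) * (3 - t) * (4 - t)) -
    4 * N ^ 3 * D * (t * (1 - t) * (2 - t) * (4 - t)) + N ^ 4 * (t * (1 - t) * (2 - t) * (3 - t))

theorem struct {β : ℝ} (hβ : β ∈ Ioo (-1 : ℝ) 0) {a b w : ℂ} (ha : G 3 β a = 0) (hb : G 3 β b = 0)
    (hw : G 3 β w = 0) (a1 : a.im = 0) (a2 : a.re < 0) (b1 : conj b = b) (ab : b ≠ a)
    (w1 : conj w ≠ w) : ∃ x y : ℝ, 0 < x ∧ 0 < y ∧ ‖b‖ = x ∧ ‖w‖ ^ 2 * (x * y) * -β = 4 + β ∧
      ∀ N D : ℝ, ∃ c > 0, g (-β) N D = c * ((N - x * D) * (N + y * D)) ∨ D = 0 := by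
  obtain ⟨h1, h0⟩ := hβ
  have e : ∀ z : ℂ, G 3 β z = 0 → z ^ 4 - (4 * (4 + β) / (3 + β) : ℝ) * z ^ 3 +
      (6 * (4 + β) / (2 + β) : ℝ) * z ^ 2 - (4 * (4 + β) / (1 + β) : ℝ) * z +
      ((4 + β) / β : ℝ) = 0 := by
    intro z hz
    have h4 : (4 + β : ℂ) ≠ 0 := by exact_mod_cast (by linarith : (4 + β : ℝ) ≠ 0)
    simp only [G, Finset.sum_range_succ, Finset.sum_range_zero, Nat.choose] at hz
    push_cast at hz ⊢
    have h5 : (4 + β : ℂ) * (4 + β : ℂ)⁻¹ = 1 := mul_inv_cancel₀ h4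
    linear_combination (4 + β : ℂ) * hz - z ^ 4 * h5
  set A := 4 * (4 + β) / (3 + β) with hA
  set B := 6 * (4 + β) / (2 + β) with hB
  set C := 4 * (4 + β) / (1 + β) with hC
  set E := (4 + β) / β with hE
  obtain ⟨r, s⟩ := w
  have hs : s ≠ 0 := fun h => w1 (by simp [h, Complex.ext_iff])
  have e1 := congrArg re (e _ hw)
  have e2 := congrArg im (e _ hw)
  simp [pow_succ] at e1 e2
  set m := r * r + s * s with hm
  set p := A - 2 * r with hp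
  set q := m + 2 * r * p - B with hq
  have r1 : -C = 2 * r * q - p * m := by
    apply mul_left_cancel₀ hs
    simp only [hq, hp, hm]
    linear_combination e2
  have r0 : E = -(m * q) := by
    simp only [hq, hp, hm] at r1 ⊢
    linear_combination e1 - r * r1
  have fac : ∀ z : ℝ, z ^ 4 - A * z ^ 3 + B * z ^ 2 - C * z + E =
      ((z - r) ^ 2 + s ^ 2) * (z ^ 2 - p * z - q) := fun z => by
    rw [r0]
    simp only [hq, hp, hm] at r1 ⊢
    linear_combination z * r1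
  have root : ∀ z : ℝ, G 3 β z = 0 → z ^ 2 - p * z - q = 0 := fun z hz => by
    have : z ^ 4 - A * z ^ 3 + B * z ^ 2 - C * z + E = 0 := by exact_mod_cast e _ hz
    rw [fac] at this
    exact (mul_eq_zero.1 this).resolve_left (by positivity)
  obtain ⟨x, rfl⟩ : ∃ x : ℝ, b = x := ⟨b.re, (conj_eq_iff_re.1 b1).symm⟩
  obtain ⟨y, rfl⟩ : ∃ y : ℝ, a = (-y : ℝ) := ⟨-a.re, Complex.ext (by simp) (by simp [a1])⟩
  have k1 := root _ ha
  have k2 := root _ hb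
  have hy : 0 < y := by simpa using a2
  have hxy : x + y ≠ 0 := fun h => ab (by rw [eq_neg_of_add_eq_zero_left h])
  have k3 : p = x - y := mul_left_cancel₀ hxy (by linear_combination k1 - k2)
  have k4 : q = x * y := by rw [k3] at k2; linear_combination -k2
  have k5 : m * (x * y) * -β = 4 + β := by
    rw [← k4, ← div_mul_cancel₀ (4 + β) h0.ne, ← hE, r0]; ring
  have hm0 : 0 < m := by rw [hm]; nlinarith [mul_self_pos.2 hs, mul_self_nonneg r]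
  have hx : 0 < x := by
    by_contra! h
    nlinarith [mul_nonneg (mul_nonneg hm0.le (mul_nonneg (neg_nonneg.2 h) hy.le)) (neg_pos.2 h0).le]
  refine ⟨x, y, hx, hy, by simp [hx.le], by rw [← normSq_eq_norm_sq, normSq_mk, k5], fun N D => ?_⟩
  by_cases hD : D = 0
  · exact ⟨1, one_pos, Or.inr hD⟩
  have b1 : 0 < 1 + β := by linarith
  have b2 : 0 < 2 + β := by linarith
  have b3 : 0 < 3 + β := by linarith
  refine ⟨-β * (1 + β) * (2 + β) * (3 + β) * ((N / D - r) ^ 2 + s ^ 2) * D ^ 2,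
    by have := neg_pos.2 h0; positivity, Or.inl ?_⟩
  have := fac (N / D)
  rw [k3, k4] at this
  have h2 : g (-β) N D = -β * (1 + β) * (2 + β) * (3 + β) * D ^ 4 *
      ((N / D) ^ 4 - A * (N / D) ^ 3 + B * (N / D) ^ 2 - C * (N / D) + E) := by
    have := h0.ne
    simp only [g, hA, hB, hC, hE]
    field_simp
    ring
  rw [h2, this]
  field_simp
  ring

theorem bern {a b t : ℝ} (h1 : a ≤ t) (h2 : t ≤ b) (n k : ℕ) : 0 ≤ (t - a) ^ k * (b - t) ^ (n - k) :=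
  mul_nonneg (pow_nonneg (sub_nonneg.2 h1) _) (pow_nonneg (sub_nonneg.2 h2) _)

theorem i1 {t : ℝ} (h1 : 1 / 80 ≤ t) (h2 : t ≤ 7 / 25) : 0 < g t (18 / 5 * t + 21 / 500) t := by
  unfold g
  rcases le_total t (1 / 8) with h | h
  · have := bern h1 h 8
    linarith [this 0, this 1, this 2, this 3, this 4, this 5, this 6, this 7, this 8]
  · have := bern h h2 8
    linarith [this 0, this 1, this 2, this 3, this 4, this 5, this 6, this 7, this 8]

theorem i2 {t : ℝ} (h1 : 1 / 80 ≤ t) (h2 : t ≤ 7 / 25) :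
    0 < g t (t - 4) (749 / 100 * (18 / 5 * t + 21 / 500)) := by
  unfold g
  have := bern h1 h2 8
  linarith [this 0, this 1, this 2, this 3, this 4, this 5, this 6, this 7, this 8]

theorem i3 {t : ℝ} (h1 : 7 / 25 ≤ t) (h2 : t ≤ 1) : g t (1493 / 400) 1 < 0 := by
  unfold g
  have := bern h1 h2 4
  linarith [this 0, this 1, this 2, this 3, this 4]

theorem i4 {t Z : ℝ} (h0 : 0 < t) (h1 : t ≤ 1 / 80) (hZ : 0 ≤ Z)
    (h : 749 / 100 * Z ^ 2 * t = 4 - t) : 0 < g t Z 1 ∧ 0 < g t (-Z) 1 := by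
  have z6 : 13 / 2 ≤ Z := by
    by_contra! c
    nlinarith [mul_lt_mul_of_pos_right (pow_lt_pow_left₀ c hZ two_ne_zero) h0]
  have k : 0 < g t Z 1 := by
    have e : g t Z 1 = t * Z * (-(749 / 100 * Z) * ((1 - t) * (2 - t) * (3 - t)) -
        4 * ((2 - t) * (3 - t) * (4 - t)) + 6 * Z * ((1 - t) * (3 - t) * (4 - t)) -
        4 * Z ^ 2 * ((1 - t) * (2 - t) * (4 - t)) + Z ^ 3 * ((1 - t) * (2 - t) * (3 - t))) := by
      unfold g
      linear_combination ((1 - t) * (2 - t) * (3 - t)) * h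
    rw [e]
    refine mul_pos (by positivity) ?_
    have a1 : (1 - t) * (2 - t) * (3 - t) ≤ 6 := by nlinarith [sq_nonneg t]
    have a2 : 29 / 5 ≤ (1 - t) * (2 - t) * (3 - t) := by nlinarith [sq_nonneg t]
    have a3 : (2 - t) * (3 - t) * (4 - t) ≤ 24 := by nlinarith [sq_nonneg t]
    have a4 : 11 ≤ (1 - t) * (3 - t) * (4 - t) := by nlinarith [sq_nonneg t]
    have a5 : (1 - t) * (2 - t) * (4 - t) ≤ 8 := by nlinarith [sq_nonneg t]
    nlinarith [mul_le_mul_of_nonneg_left a1 hZ, mul_le_mul_of_nonneg_left a4 hZ,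
      mul_le_mul_of_nonneg_left a5 (sq_nonneg Z), mul_le_mul_of_nonneg_left a2 (pow_nonneg hZ 3),
      mul_le_mul_of_nonneg_left z6 (sq_nonneg Z)]
  refine ⟨k, k.trans_le ?_⟩
  have b1 : 0 < 1 - t := by linarith
  have b2 : 0 < 2 - t := by linarith
  have b3 : 0 < 3 - t := by linarith
  have b4 : 0 < 4 - t := by linarith
  have c1 : 0 ≤ Z * (t * (2 - t) * (3 - t) * (4 - t)) := by positivity
  have c2 : 0 ≤ Z ^ 3 * (t * (1 - t) * (2 - t) * (4 - t)) := by positivity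
  unfold g
  linarith

theorem result (X₀ X₁ X₂ : ℝ → ℂ)
    (h : ∀ β ∈ Ioo (-1 : ℝ) 0, G 3 β (X₀ β) = 0 ∧ G 3 β (X₁ β) = 0 ∧ G 3 β (X₂ β) = 0 ∧
      (X₀ β).im = 0 ∧ (X₀ β).re < 0 ∧ conj (X₂ β) = X₂ β ∧ X₂ β ≠ X₀ β ∧ conj (X₁ β) ≠ X₁ β) :
    ¬ ∃ β ∈ Ioo (-1 : ℝ) 0, IsMinOn (fun b => ‖X₁ b‖) (Ioo (-1) 0) β ∧
      IsMinOn (fun b => ‖X₂ b‖) (Ioo (-1) 0) β := by
  have key : ∀ β ∈ Ioo (-1 : ℝ) 0, ∃ x y : ℝ, 0 < x ∧ 0 < y ∧ ‖X₂ β‖ = x ∧
      ‖X₁ β‖ ^ 2 * (x * y) * -β = 4 + β ∧ ∀ N D : ℝ, 0 < N → 0 < D →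
        (0 < g (-β) N D → x * D < N) ∧ (g (-β) N D < 0 → N < x * D) ∧
        (0 < g (-β) (-N) D → y * D < N) ∧ (g (-β) (-N) D < 0 → N < y * D) := by
    intro β hβ
    obtain ⟨a, b, c, d, e, f, i, j⟩ := h β hβ
    obtain ⟨x, y, hx, hy, k1, k2, k3⟩ := struct hβ a c b d e f i j
    refine ⟨x, y, hx, hy, k1, k2, fun N D hN hD => ?_⟩
    obtain ⟨c1, p1, e1⟩ := k3 N D
    obtain ⟨c2, p2, e2⟩ := k3 (-N) D
    rw [e1.resolve_right hD.ne', e2.resolve_right hD.ne']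
    have q1 : 0 < c1 * (N + y * D) := by positivity
    have q2 : 0 < c2 * (N + x * D) := by positivity
    refine ⟨fun u => ?_, fun u => ?_, fun u => ?_, fun u => ?_⟩ <;> by_contra! v <;> nlinarith
  rintro ⟨β, hβ, m1, m2⟩
  obtain ⟨x, y, hx, hy, k1, k2, k3⟩ := key β hβ
  rcases le_total (7 / 25) (-β) with c | c
  · obtain ⟨x', y', -, -, l1, -, l3⟩ := key (-27 / 100) (by norm_num)
    have a := (k3 _ 1 (by norm_num) one_pos).2.1 (i3 c (by linarith [hβ.1]))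
    have b := (l3 (1493 / 400) 1 (by norm_num) one_pos).1 (by norm_num [g])
    have : ‖X₂ β‖ ≤ ‖X₂ (-27 / 100)‖ := m2 (by norm_num)
    linarith
  obtain ⟨x', y', -, -, -, l2, l3⟩ := key (-1 / 3) (by norm_num)
  have a := (l3 (469 / 125) 1 (by norm_num) one_pos).2.1 (by norm_num [g])
  have b := (l3 (3917 / 10000) 1 (by norm_num) one_pos).2.2.2 (by norm_num [g])
  have d : ‖X₁ β‖ ^ 2 ≤ ‖X₁ (-1 / 3)‖ ^ 2 :=
    pow_le_pow_left₀ (norm_nonneg _) (m1 (by norm_num : (-1 / 3 : ℝ) ∈ Ioo (-1 : ℝ) 0)) 2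
  have e : 469 / 125 * (3917 / 10000) < x' * y' := by nlinarith
  have f : ‖X₁ β‖ ^ 2 < 749 / 100 := by nlinarith [sq_nonneg ‖X₁ (-1 / 3)‖]
  have t0 := neg_pos.2 hβ.2
  suffices 749 / 100 * (x * y) * -β < 4 + β by nlinarith [mul_pos (mul_pos hx hy) t0]
  rcases le_total (1 / 80) (-β) with u | u
  · have i := (k3 _ _ (by positivity) t0).1 (i1 u c)
    have j := (k3 (4 + β) (749 / 100 * (18 / 5 * -β + 21 / 500)) (by linarith [hβ.1])
      (by positivity)).2.2.1 (by convert i2 u c using 2; ring)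
    nlinarith [mul_lt_mul_of_pos_left i hy]
  · have v : 0 < (4 + β) / (749 / 100 * -β) := div_pos (by linarith [hβ.1]) (by positivity)
    have w : 749 / 100 * √((4 + β) / (749 / 100 * -β)) ^ 2 * -β = 4 - -β := by
      have := hβ.2.ne
      rw [Real.sq_sqrt v.le]; field_simp; ring
    obtain ⟨i, j⟩ := i4 t0 u (Real.sqrt_nonneg _) w
    have i' := (k3 _ 1 (Real.sqrt_pos.2 v) one_pos).1 i
    have j' := (k3 _ 1 (Real.sqrt_pos.2 v) one_pos).2.2.1 j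
    have := mul_lt_mul'' i' j' (by positivity) (by positivity)
    nlinarith

end Pool.Agent.Results.MP_9fecad_an.NoCommonMin
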